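import Mathlib

/-!
Values at a rational point of the integer polynomials arising from Bernoulli mixing.
-/

set_option autoImplicit false

namespace Pool.Agent.H917TG

open Finset

section mix

variable {K : Type*} [Field K] [CharZero K]

/-- Values of the mixing polynomials. -/
theorem bern (Q : K → Prop) (a a' : ℕ) (hb : 0 < a + a') (h0 : Q 0) (h1 : Q 1)
    (hmix : ∀ x y, Q x → Q y →
      Q ((a : K) / ((a + a' : ℕ) : K) * x + (1 - (a : K) / ((a + a' : ℕ) : K)) * y)) :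
    ∀ (n : ℕ) (c : ℕ → ℕ), (∀ k, c k ≤ n.choose k) →
      Q ((∑ k ∈ range (n + 1), (c k : K) * a ^ k * a' ^ (n - k)) / ((a + a' : ℕ) : K) ^ n) := by
  have hbK : ((a + a' : ℕ) : K) ≠ 0 := by exact_mod_cast hb.ne'
  intro n
  induction n with
  | zero =>
    intro c hc
    have h := hc 0
    rw [Nat.choose_self] at h
    have h2 : c 0 = 0 ∨ c 0 = 1 := by omega
    rcases h2 with h2 | h2
    · simpa [h2] using h0
    · simpa [h2] using h1
  | succ n ih =>
    intro c hc
    set d : ℕ → ℕ := fun k => min (c k) (n.choose k) with hd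
    set e : ℕ → ℕ := fun k => c k - n.choose k with he
    have hsplit : ∀ k, c k = d k + e k := by
      intro k
      simp only [hd, he]
      omega
    have he0 : e 0 = 0 := by
      have h := hc 0
      simp only [he, Nat.choose_zero_right] at h ⊢
      omega
    have hdn : d (n + 1) = 0 := by
      simp [hd]
    have hdl : ∀ k, d k ≤ n.choose k := fun k => min_le_right _ _
    have hel : ∀ k, e (k + 1) ≤ n.choose k := by
      intro k
      have h := hc (k + 1)
      rw [Nat.choose_succ_succ] at h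
      simp only [he]
      have h' : c (k + 1) ≤ n.choose k + n.choose (k + 1) := h
      omega
    have q1 := ih d hdl
    have q2 := ih (fun k => e (k + 1)) hel
    have h3 := hmix _ _ q2 q1
    convert h3 using 1
    have hs : (∑ k ∈ range (n + 1 + 1), (c k : K) * a ^ k * a' ^ (n + 1 - k)) =
        a' * (∑ k ∈ range (n + 1), (d k : K) * a ^ k * a' ^ (n - k)) +
        a * (∑ k ∈ range (n + 1), (e (k + 1) : K) * a ^ k * a' ^ (n - k)) := by
      have e1 : (∑ k ∈ range (n + 1 + 1), (c k : K) * a ^ k * a' ^ (n + 1 - k)) =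
          (∑ k ∈ range (n + 1 + 1), (d k : K) * a ^ k * a' ^ (n + 1 - k)) +
          (∑ k ∈ range (n + 1 + 1), (e k : K) * a ^ k * a' ^ (n + 1 - k)) := by
        rw [← sum_add_distrib]
        refine sum_congr rfl fun k _ => ?_
        rw [hsplit k]
        push_cast
        ring
      rw [e1, sum_range_succ, hdn, sum_range_succ' (fun k => (e k : K) * a ^ k * a' ^ (n + 1 - k)),
        he0, mul_sum, mul_sum]
      simp only [Nat.cast_zero, zero_mul, add_zero]
      congr 1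
      · refine sum_congr rfl fun k hk => ?_
        have hk' : k ≤ n := Nat.lt_succ_iff.1 (mem_range.1 hk)
        rw [Nat.succ_sub hk', pow_succ]
        ring
      · refine sum_congr rfl fun k hk => ?_
        rw [Nat.add_sub_add_right, pow_succ]
        ring
    rw [hs]
    have h4 : (1 - (a : K) / ((a + a' : ℕ) : K)) = (a' : K) / ((a + a' : ℕ) : K) := by
      rw [eq_div_iff hbK, sub_mul, div_mul_cancel₀ _ hbK]
      push_cast
      ring
    rw [h4]
    field_simp
    ring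

end mix

/-- Expansion of an integer with respect to the weights `a ^ j * b ^ (N - j)`. -/
theorem rep (a b : ℤ) (hb : 0 < b) (hab : IsCoprime a b) : ∀ (N : ℕ) (R : ℤ),
    ∃ r : ℕ → ℤ, (∀ j, 1 ≤ j → 0 ≤ r j ∧ r j < b) ∧
      ∑ j ∈ range (N + 1), r j * a ^ j * b ^ (N - j) = R := by
  intro N
  induction N with
  | zero =>
    intro R
    refine ⟨fun j => if j = 0 then R else 0, fun j hj => ?_, by simp⟩
    have : j ≠ 0 := by omega
    simp [this, hb]
  | succ N ih =>
    intro R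
    obtain ⟨u, v, huv⟩ := (hab.pow_left : IsCoprime (a ^ (N + 1)) b)
    set s : ℤ := (u * R) % b with hs
    have hs0 : 0 ≤ s := Int.emod_nonneg _ hb.ne'
    have hs1 : s < b := Int.emod_lt_of_pos _ hb
    have hdvd : b ∣ R - s * a ^ (N + 1) := by
      have h1 : b ∣ u * R - s := by
        rw [hs]
        exact Int.dvd_self_sub_emod
      obtain ⟨w, hw⟩ := h1
      refine ⟨v * R + w * a ^ (N + 1), ?_⟩
      have : R = (u * a ^ (N + 1) + v * b) * R := by rw [huv, one_mul]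
      linear_combination (-(R : ℤ)) * huv + (-(a ^ (N + 1))) * (-hw)
    obtain ⟨R', hR'⟩ := hdvd
    obtain ⟨r, hr, hsum⟩ := ih R'
    refine ⟨fun j => if j = N + 1 then s else r j, fun j hj => ?_, ?_⟩
    · by_cases h : j = N + 1
      · simp [h, hs0, hs1]
      · simp only [h, if_false]
        exact hr j hj
    · rw [sum_range_succ]
      simp only [if_true, Nat.sub_self, pow_zero, mul_one]
      have h2 : ∑ j ∈ range (N + 1), (if j = N + 1 then s else r j) * a ^ j * b ^ (N + 1 - j) =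
          b * R' := by
        rw [← hsum, mul_sum]
        refine sum_congr rfl fun j hj => ?_
        have hj' : j ≤ N := Nat.lt_succ_iff.1 (mem_range.1 hj)
        rw [if_neg (by omega), Nat.succ_sub hj', pow_succ]
        ring
      rw [h2, ← hR']
      ring

theorem split_sum (N : ℕ) (a b : ℤ) (f : ℕ → ℤ) :
    ∑ k ∈ range (N + 2 + 1), f k * a ^ k * b ^ (N + 2 - k) =
      f 0 * b ^ (N + 2) + f (N + 2) * a ^ (N + 2) +
        a * b * ∑ j ∈ range (N + 1), f (j + 1) * a ^ j * b ^ (N - j) := by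
  rw [sum_range_succ, sum_range_succ', mul_sum]
  have h : ∑ k ∈ range (N + 1), f (k + 1) * a ^ (k + 1) * b ^ (N + 2 - (k + 1)) =
      ∑ k ∈ range (N + 1), a * b * (f (k + 1) * a ^ k * b ^ (N - k)) := by
    refine sum_congr rfl fun k hk => ?_
    have hk' : k ≤ N := Nat.lt_succ_iff.1 (mem_range.1 hk)
    have : N + 2 - (k + 1) = N - k + 1 := by omega
    rw [this, pow_succ, pow_succ]
    ring
  rw [h]
  simp only [Nat.sub_self, pow_zero, mul_one, Nat.sub_zero]
  ring

theorem geo_le (a b : ℤ) (ha : 0 ≤ a) (hab : a < b) (N : ℕ) :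
    ∑ j ∈ range (N + 1), a ^ j * b ^ (N - j) ≤ b ^ (N + 1) := by
  have h : (∑ j ∈ range (N + 1), a ^ j * b ^ (N - j)) * (b - a) = b ^ (N + 1) - a ^ (N + 1) := by
    have := (Commute.all a b).geom_sum₂_mul (N + 1)
    simp only [Nat.add_sub_cancel] at this
    linear_combination -this
  have h0 : 0 ≤ ∑ j ∈ range (N + 1), a ^ j * b ^ (N - j) :=
    sum_nonneg fun j _ => mul_nonneg (pow_nonneg ha _) (pow_nonneg (ha.trans hab.le) _)
  have h1 : 0 ≤ a ^ (N + 1) := pow_nonneg ha _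
  nlinarith

theorem le_choose : ∀ (n k : ℕ), 1 ≤ k → k < n → n ≤ n.choose k := by
  intro n
  induction n with
  | zero => intro k _ h; omega
  | succ n ih =>
    intro k hk hkn
    rcases Nat.lt_or_ge k n with h | h
    · obtain ⟨m, rfl⟩ := Nat.exists_eq_add_of_le' hk
      rw [Nat.choose_succ_succ]
      have h1 := ih (m + 1) hk h
      have h2 : 0 < n.choose m := Nat.choose_pos (by omega)
      have h3 : n ≤ n.choose m.succ := h1
      omega
    · have : k = n := by omega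
      subst this
      rw [Nat.choose_succ_self_right]

/-- The main numerical lemma. -/
theorem coeffs (a b q c N : ℕ) (ha : 0 < a) (hab : a < b) (hcop : Nat.Coprime a b)
    (hc0 : 0 < c) (hcq : c < q) (hq : q ∣ (a + b) ^ (N + 2))
    (h1 : a ∣ c ∨ a ∣ q - c) (h2 : b ∣ c ∨ b ∣ q - c) (hN : q * (4 * b ^ 2 + 1) ≤ N) :
    ∃ u : ℕ → ℕ, (∀ k, u k ≤ (N + 2).choose k) ∧
      (∑ k ∈ range (N + 2 + 1), (u k : ℤ) * (a : ℤ) ^ k * (b : ℤ) ^ (N + 2 - k)) * q =
        c * ((a + b : ℕ) : ℤ) ^ (N + 2) := by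
  classical
  have haz : (0 : ℤ) < a := by exact_mod_cast ha
  have habz : (a : ℤ) < b := by exact_mod_cast hab
  have hbz : (0 : ℤ) < b := haz.trans habz
  have hqz : (0 : ℤ) < q := by exact_mod_cast hc0.trans hcq
  have hcz : (0 : ℤ) < c := by exact_mod_cast hc0
  have hcqz : (c : ℤ) < q := by exact_mod_cast hcq
  have hcopz : IsCoprime (a : ℤ) b := Nat.isCoprime_iff_coprime.2 hcop
  have hqa : IsCoprime (q : ℤ) a := by
    rw [Nat.isCoprime_iff_coprime]
    refine Nat.Coprime.coprime_dvd_left hq (Nat.Coprime.pow_left _ ?_)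
    rw [Nat.coprime_self_add_left]
    exact hcop.symm
  have hqb : IsCoprime (q : ℤ) b := by
    rw [Nat.isCoprime_iff_coprime]
    refine Nat.Coprime.coprime_dvd_left hq (Nat.Coprime.pow_left _ ?_)
    rw [Nat.coprime_add_self_left]
    exact hcop
  obtain ⟨Y, hY⟩ := hq
  set Z : ℤ := c * Y with hZ
  have hZq : (q : ℤ) * Z = c * ((a : ℤ) + b) ^ (N + 2) := by
    have : (((a + b) ^ (N + 2) : ℕ) : ℤ) = ((q * Y : ℕ) : ℤ) := by rw [hY]
    push_cast at this
    rw [this, hZ]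
    ring
  -- residues
  have hda : ∀ x y : ℤ, (x : ℤ) ∣ ((x + y) ^ (N + 2) - y ^ (N + 2)) := by
    intro x y
    have := sub_dvd_pow_sub_pow (x + y) y (N + 2)
    rwa [add_sub_cancel_right] at this
  have key : ∀ x y : ℤ, IsCoprime (q : ℤ) x → (q : ℤ) * Z = c * (x + y) ^ (N + 2) →
      (x ∣ (c : ℤ) ∨ x ∣ (q : ℤ) - c) →
      ∃ ε : ℤ, (ε = 0 ∨ ε = 1) ∧ x ∣ Z - ε * y ^ (N + 2) := by
    intro x y hx hZ' h
    rcases h with h | h
    · refine ⟨0, Or.inl rfl, ?_⟩
      rw [zero_mul, sub_zero]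
      apply hx.symm.dvd_of_dvd_mul_left
      rw [hZ']
      exact h.mul_right _
    · refine ⟨1, Or.inr rfl, ?_⟩
      rw [one_mul]
      apply hx.symm.dvd_of_dvd_mul_left
      have e : (q : ℤ) * (Z - y ^ (N + 2)) =
          -((q : ℤ) - c) * (x + y) ^ (N + 2) + q * ((x + y) ^ (N + 2) - y ^ (N + 2)) := by
        linear_combination hZ'
      rw [e]
      exact dvd_add ((dvd_neg.2 h).mul_right _) ((hda x y).mul_left _)
  have hsubz : ((q - c : ℕ) : ℤ) = (q : ℤ) - c := by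
    rw [Nat.cast_sub hcq.le]
  obtain ⟨ε, hε, hεd⟩ := key a b hqa hZq (by
    rcases h1 with h | h
    · left; exact_mod_cast h
    · right; rw [← hsubz]; exact_mod_cast h)
  obtain ⟨ε', hε', hεd'⟩ := key b a hqb (by rw [hZq]; ring) (by
    rcases h2 with h | h
    · left; exact_mod_cast h
    · right; rw [← hsubz]; exact_mod_cast h)
  obtain ⟨Z', hZ'⟩ : (a : ℤ) * b ∣ Z - ε' * (a : ℤ) ^ (N + 2) - ε * (b : ℤ) ^ (N + 2) := by
    apply hcopz.mul_dvd
    · have e : Z - ε' * (a : ℤ) ^ (N + 2) - ε * (b : ℤ) ^ (N + 2) =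
          (Z - ε * (b : ℤ) ^ (N + 2)) - a * (ε' * (a : ℤ) ^ (N + 1)) := by
        rw [pow_succ (a : ℤ) (N + 1)]; ring
      rw [e]
      exact dvd_sub hεd (dvd_mul_right _ _)
    · have e : Z - ε' * (a : ℤ) ^ (N + 2) - ε * (b : ℤ) ^ (N + 2) =
          (Z - ε' * (a : ℤ) ^ (N + 2)) - b * (ε * (b : ℤ) ^ (N + 1)) := by
        rw [pow_succ (b : ℤ) (N + 1)]; ring
      rw [e]
      exact dvd_sub hεd' (dvd_mul_right _ _)
  set f : ℕ → ℕ := fun k => c * (N + 2).choose k / q with hf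
  set R : ℤ := Z' - ∑ j ∈ range (N + 1), (f (j + 1) : ℤ) * a ^ j * b ^ (N - j) with hR
  obtain ⟨r, hr, hrs⟩ := rep a b hbz hcopz N R
  set W : ℤ := ∑ j ∈ range (N + 1), (a : ℤ) ^ j * b ^ (N - j) with hW
  have hWle : W ≤ (b : ℤ) ^ (N + 1) := geo_le a b haz.le habz N
  have hW0 : 0 ≤ W := sum_nonneg fun j _ => mul_nonneg (pow_nonneg haz.le _) (pow_nonneg hbz.le _)
  -- the remainders
  have hfm : ∀ k, 0 ≤ (c : ℤ) * (N + 2).choose k - q * f k ∧
      (c : ℤ) * (N + 2).choose k - q * f k ≤ q := by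
    intro k
    have h3 := Nat.div_add_mod (c * (N + 2).choose k) q
    have h4 := Nat.mod_lt (c * (N + 2).choose k) (hc0.trans hcq)
    have h5 : ((q * (c * (N + 2).choose k / q) + c * (N + 2).choose k % q : ℕ) : ℤ) =
        ((c * (N + 2).choose k : ℕ) : ℤ) := by rw [h3]
    push_cast at h5
    have h6 : ((c * (N + 2).choose k % q : ℕ) : ℤ) < q := by exact_mod_cast h4
    have h7 : (0 : ℤ) ≤ ((c * (N + 2).choose k % q : ℕ) : ℤ) := Int.natCast_nonneg _
    push_cast at h6 h7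
    simp only [hf]
    push_cast
    constructor <;> linarith
  have hbin : ((a : ℤ) + b) ^ (N + 2) = (b : ℤ) ^ (N + 2) + (a : ℤ) ^ (N + 2) +
      a * b * ∑ j ∈ range (N + 1), ((N + 2).choose (j + 1) : ℤ) * a ^ j * b ^ (N - j) := by
    have h3 := split_sum N a b (fun k => ((N + 2).choose k : ℤ))
    simp only [Nat.choose_zero_right, Nat.choose_self, Nat.cast_one, one_mul] at h3
    rw [← h3, add_pow]
    refine sum_congr rfl fun k _ => ?_
    ring
  have hqR : (q : ℤ) * (a * b) * R = (c - q * ε') * (a : ℤ) ^ (N + 2) +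
      (c - q * ε) * (b : ℤ) ^ (N + 2) + a * b * ∑ j ∈ range (N + 1),
        ((c : ℤ) * (N + 2).choose (j + 1) - q * f (j + 1)) * (a ^ j * b ^ (N - j)) := by
    have e1 : ∑ j ∈ range (N + 1),
        ((c : ℤ) * (N + 2).choose (j + 1) - q * f (j + 1)) * (a ^ j * b ^ (N - j)) =
        c * (∑ j ∈ range (N + 1), ((N + 2).choose (j + 1) : ℤ) * a ^ j * b ^ (N - j)) -
        q * ∑ j ∈ range (N + 1), (f (j + 1) : ℤ) * a ^ j * b ^ (N - j) := by
      rw [mul_sum, mul_sum, ← sum_sub_distrib]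
      refine sum_congr rfl fun j _ => ?_
      ring
    rw [e1, hR]
    linear_combination (-(q : ℤ)) * hZ' + hZq + c * hbin
  have hpa : (0 : ℤ) < (a : ℤ) ^ (N + 2) := pow_pos haz _
  have hpb : (0 : ℤ) < (b : ℤ) ^ (N + 2) := pow_pos hbz _
  have hpab : (a : ℤ) ^ (N + 2) ≤ (b : ℤ) ^ (N + 2) := pow_le_pow_left₀ haz.le habz.le _
  have hsumlo : 0 ≤ ∑ j ∈ range (N + 1),
      ((c : ℤ) * (N + 2).choose (j + 1) - q * f (j + 1)) * (a ^ j * b ^ (N - j)) :=
    sum_nonneg fun j _ => mul_nonneg (hfm _).1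
      (mul_nonneg (pow_nonneg haz.le _) (pow_nonneg hbz.le _))
  have hsumhi : ∑ j ∈ range (N + 1),
      ((c : ℤ) * (N + 2).choose (j + 1) - q * f (j + 1)) * ((a : ℤ) ^ j * b ^ (N - j)) ≤ q * W := by
    rw [hW, mul_sum]
    exact sum_le_sum fun j _ => mul_le_mul_of_nonneg_right (hfm _).2
      (mul_nonneg (pow_nonneg haz.le _) (pow_nonneg hbz.le _))
  have hcoef : ∀ e : ℤ, (e = 0 ∨ e = 1) → -(q : ℤ) ≤ c - q * e ∧ (c : ℤ) - q * e ≤ q := by
    rintro e (rfl | rfl) <;> constructor <;> linarith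
  have hc1 := hcoef ε hε
  have hc2 := hcoef ε' hε'
  have hab0 : (0 : ℤ) < a * b := mul_pos haz hbz
  have hb2 : (b : ℤ) ^ (N + 2) = b * b ^ (N + 1) := by ring
  have hb1 : (0 : ℤ) < (b : ℤ) ^ (N + 1) := pow_pos hbz _
  have hup : R ≤ 3 * (b : ℤ) ^ (N + 1) := by
    have h3 : (q : ℤ) * (a * b) * R ≤ (q : ℤ) * (a * b) * (3 * (b : ℤ) ^ (N + 1)) := by
      rw [hqR]
      have t1 : (c - q * ε') * (a : ℤ) ^ (N + 2) ≤ q * (b : ℤ) ^ (N + 2) :=
        (mul_le_mul_of_nonneg_right hc2.2 hpa.le).trans (mul_le_mul_of_nonneg_left hpab hqz.le)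
      have t2 : (c - q * ε) * (b : ℤ) ^ (N + 2) ≤ q * (b : ℤ) ^ (N + 2) :=
        mul_le_mul_of_nonneg_right hc1.2 hpb.le
      have t3 : a * b * ∑ j ∈ range (N + 1),
          ((c : ℤ) * (N + 2).choose (j + 1) - q * f (j + 1)) * ((a : ℤ) ^ j * b ^ (N - j)) ≤
          a * b * (q * (b : ℤ) ^ (N + 1)) :=
        mul_le_mul_of_nonneg_left (hsumhi.trans (mul_le_mul_of_nonneg_left hWle hqz.le)) hab0.le
      have t4 : (q : ℤ) * (b : ℤ) ^ (N + 2) ≤ a * b * (q * (b : ℤ) ^ (N + 1)) := by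
        rw [hb2]
        have : (0 : ℤ) ≤ (a - 1) * (b * (q * (b : ℤ) ^ (N + 1))) :=
          mul_nonneg (by linarith) (mul_nonneg hbz.le (mul_nonneg hqz.le hb1.le))
        linarith
      linarith
    exact le_of_mul_le_mul_left h3 (mul_pos hqz hab0)
  have hlo : -(2 * (b : ℤ) ^ (N + 1)) ≤ R := by
    have h3 : (q : ℤ) * (a * b) * (-(2 * (b : ℤ) ^ (N + 1))) ≤ (q : ℤ) * (a * b) * R := by
      rw [hqR]
      have t1 : -(q * (b : ℤ) ^ (N + 2)) ≤ (c - q * ε') * (a : ℤ) ^ (N + 2) := by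
        have := mul_le_mul_of_nonneg_right hc2.1 hpa.le
        have h' := mul_le_mul_of_nonneg_left hpab hqz.le
        linarith
      have t2 : -(q * (b : ℤ) ^ (N + 2)) ≤ (c - q * ε) * (b : ℤ) ^ (N + 2) := by
        have := mul_le_mul_of_nonneg_right hc1.1 hpb.le
        linarith
      have t3 : 0 ≤ a * b * ∑ j ∈ range (N + 1),
          ((c : ℤ) * (N + 2).choose (j + 1) - q * f (j + 1)) * ((a : ℤ) ^ j * b ^ (N - j)) :=
        mul_nonneg hab0.le hsumlo
      have t4 : (q : ℤ) * (b : ℤ) ^ (N + 2) ≤ a * b * (q * (b : ℤ) ^ (N + 1)) := by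
        rw [hb2]
        have : (0 : ℤ) ≤ (a - 1) * (b * (q * (b : ℤ) ^ (N + 1))) :=
          mul_nonneg (by linarith) (mul_nonneg hbz.le (mul_nonneg hqz.le hb1.le))
        linarith
      linarith
    exact le_of_mul_le_mul_left h3 (mul_pos hqz hab0)
  -- bound for r 0
  have hr0 : |r 0| ≤ 4 * (b : ℤ) ^ 2 := by
    rw [sum_range_succ'] at hrs
    simp only [pow_zero, mul_one, Nat.sub_zero] at hrs
    set T : ℤ := ∑ k ∈ range N, r (k + 1) * (a : ℤ) ^ (k + 1) * (b : ℤ) ^ (N - (k + 1)) with hT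
    have hT0 : 0 ≤ T := sum_nonneg fun k _ => mul_nonneg (mul_nonneg (hr _ (by omega)).1
      (pow_nonneg haz.le _)) (pow_nonneg hbz.le _)
    have hT1 : T ≤ b * (b : ℤ) ^ (N + 1) := by
      have h3 : T ≤ b * ∑ k ∈ range N, (a : ℤ) ^ (k + 1) * (b : ℤ) ^ (N - (k + 1)) := by
        rw [hT, mul_sum]
        refine sum_le_sum fun k _ => ?_
        rw [mul_assoc]
        exact mul_le_mul_of_nonneg_right (hr _ (by omega)).2.le
          (mul_nonneg (pow_nonneg haz.le _) (pow_nonneg hbz.le _))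
      have h4 : ∑ k ∈ range N, (a : ℤ) ^ (k + 1) * (b : ℤ) ^ (N - (k + 1)) ≤ W := by
        rw [hW, sum_range_succ']
        simp only [pow_zero, one_mul, Nat.sub_zero]
        linarith [pow_nonneg hbz.le N]
      exact h3.trans (mul_le_mul_of_nonneg_left (h4.trans hWle) hbz.le)
    have hbN : (0 : ℤ) < (b : ℤ) ^ N := pow_pos hbz _
    have hb1' : (b : ℤ) ^ (N + 1) = b * b ^ N := by ring
    have hbge : (1 : ℤ) ≤ b := by linarith
    have e5 : r 0 * (b : ℤ) ^ N = R - T := by linarith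
    rw [abs_le]
    constructor
    · have h5 : (-(4 * (b : ℤ) ^ 2)) * (b : ℤ) ^ N ≤ r 0 * (b : ℤ) ^ N := by
        rw [e5]
        have h6 : (b : ℤ) * (b : ℤ) ^ (N + 1) = (b : ℤ) ^ 2 * b ^ N := by ring
        have h7 : (b : ℤ) ^ (N + 1) ≤ (b : ℤ) ^ 2 * b ^ N := by
          rw [hb1']
          have : (0 : ℤ) ≤ (b - 1) * (b * b ^ N) := mul_nonneg (by linarith)
            (mul_nonneg hbz.le hbN.le)
          linarith
        linarith [mul_nonneg (sq_nonneg (b : ℤ)) hbN.le]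
      exact le_of_mul_le_mul_right h5 hbN
    · have h5 : r 0 * (b : ℤ) ^ N ≤ (4 * (b : ℤ) ^ 2) * (b : ℤ) ^ N := by
        rw [e5]
        have h7 : (b : ℤ) ^ (N + 1) ≤ (b : ℤ) ^ 2 * b ^ N := by
          rw [hb1']
          have : (0 : ℤ) ≤ (b - 1) * (b * b ^ N) := mul_nonneg (by linarith)
            (mul_nonneg hbz.le hbN.le)
          linarith
        linarith [mul_nonneg (sq_nonneg (b : ℤ)) hbN.le]
      exact le_of_mul_le_mul_right h5 hbN
  have hrall : ∀ j, -(4 * (b : ℤ) ^ 2) ≤ r j ∧ r j ≤ 4 * (b : ℤ) ^ 2 := by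
    intro j
    rcases Nat.eq_zero_or_pos j with rfl | hj
    · exact abs_le.1 hr0
    · have h3 := hr j hj
      have h4 : (b : ℤ) ≤ 4 * (b : ℤ) ^ 2 := by nlinarith
      constructor
      · linarith [h3.1, sq_nonneg (b : ℤ)]
      · linarith [h3.2]
  have hNz : (q : ℤ) * (4 * (b : ℤ) ^ 2 + 1) ≤ N := by exact_mod_cast hN
  have hchoose : ∀ j, j ≤ N → (N : ℤ) ≤ (N + 2).choose (j + 1) := by
    intro j hj
    have h3 : N + 2 ≤ (N + 2).choose (j + 1) := le_choose _ _ (by omega) (by omega)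
    have h4 : ((N + 2 : ℕ) : ℤ) ≤ ((N + 2).choose (j + 1) : ℤ) := by exact_mod_cast h3
    push_cast at h4
    linarith
  -- the middle coefficients
  have hmid : ∀ j, j ≤ N → 0 ≤ (f (j + 1) : ℤ) + r j ∧
      (f (j + 1) : ℤ) + r j ≤ (N + 2).choose (j + 1) := by
    intro j hj
    have h3 := hfm (j + 1)
    have h4 := hchoose j hj
    have h5 := hrall j
    set C : ℤ := ((N + 2).choose (j + 1) : ℤ) with hC
    set F : ℤ := (f (j + 1) : ℤ) with hF
    have hC0 : 0 ≤ C := Int.natCast_nonneg _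
    constructor
    · -- q * F ≥ c * C - q ≥ C - q ≥ N - q
      have h6 : C ≤ c * C := by
        have : (0 : ℤ) ≤ (c - 1) * C := mul_nonneg (by linarith) hC0
        linarith
      have h7 : (q : ℤ) * (4 * (b : ℤ) ^ 2) ≤ q * F := by linarith
      have h8 := le_of_mul_le_mul_left h7 hqz
      linarith
    · -- q * F ≤ c * C ≤ (q - 1) * C
      have h6 : c * C ≤ (q - 1) * C := mul_le_mul_of_nonneg_right (by linarith) hC0
      have h7 : (q : ℤ) * (F + 4 * (b : ℤ) ^ 2) ≤ q * C := by linarith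
      have h8 := le_of_mul_le_mul_left h7 hqz
      linarith
  have hε0 : ∀ e : ℤ, (e = 0 ∨ e = 1) → 0 ≤ e ∧ e ≤ 1 := by
    rintro e (rfl | rfl) <;> constructor <;> norm_num
  set g : ℕ → ℤ := fun k => if k = 0 then ε else if k = N + 2 then ε' else
    if k ≤ N + 1 then (f k : ℤ) + r (k - 1) else 0 with hg
  have hgb : ∀ k, 0 ≤ g k ∧ g k ≤ (N + 2).choose k := by
    intro k
    simp only [hg]
    split_ifs with k1 k2 k3
    · subst k1; simpa using hε0 ε hε
    · subst k2; simpa using hε0 ε' hε'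
    · obtain ⟨j, rfl⟩ : ∃ j, k = j + 1 := ⟨k - 1, by omega⟩
      simpa using hmid j (by omega)
    · exact ⟨le_rfl, Int.natCast_nonneg _⟩
  refine ⟨fun k => (g k).toNat, fun k => ?_, ?_⟩
  · exact Int.toNat_le.2 (hgb k).2
  · have e1 : ∑ k ∈ range (N + 2 + 1), ((g k).toNat : ℤ) * (a : ℤ) ^ k * (b : ℤ) ^ (N + 2 - k) =
        ∑ k ∈ range (N + 2 + 1), g k * (a : ℤ) ^ k * (b : ℤ) ^ (N + 2 - k) := by
      refine sum_congr rfl fun k _ => ?_
      rw [Int.toNat_of_nonneg (hgb k).1]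
    rw [e1, split_sum]
    have g0 : g 0 = ε := by simp [hg]
    have g2 : g (N + 2) = ε' := by simp [hg]
    have g3 : ∑ j ∈ range (N + 1), g (j + 1) * (a : ℤ) ^ j * (b : ℤ) ^ (N - j) =
        (∑ j ∈ range (N + 1), (f (j + 1) : ℤ) * a ^ j * b ^ (N - j)) +
        ∑ j ∈ range (N + 1), r j * a ^ j * b ^ (N - j) := by
      rw [← sum_add_distrib]
      refine sum_congr rfl fun j hj => ?_
      have hj' : j ≤ N := Nat.lt_succ_iff.1 (mem_range.1 hj)
      have : g (j + 1) = (f (j + 1) : ℤ) + r j := by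
        simp only [hg]
        rw [if_neg (by omega), if_neg (by omega), if_pos (by omega), Nat.add_sub_cancel]
      rw [this]
      ring
    rw [g0, g2, g3, hrs]
    push_cast
    linear_combination hZq - q * hZ'

section close

variable {K : Type*} [Field K] [CharZero K]

theorem close_lt (Q : K → Prop) (a a' : ℕ) (ha : 0 < a) (haa : a < a')
    (hcop : Nat.Coprime a a') (h0 : Q 0) (h1 : Q 1)
    (hmix : ∀ x y, Q x → Q y →
      Q ((a : K) / ((a + a' : ℕ) : K) * x + (1 - (a : K) / ((a + a' : ℕ) : K)) * y))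
    (c q m : ℕ) (hc0 : 0 < c) (hcq : c < q) (hq : q ∣ (a + a') ^ m)
    (hc1 : a ∣ c ∨ a ∣ q - c) (hc2 : a' ∣ c ∨ a' ∣ q - c) : Q ((c : K) / q) := by
  have hb : 0 < a + a' := by omega
  obtain ⟨u, hu, hsum⟩ := coeffs a a' q c (q * (4 * a' ^ 2 + 1) + m) ha haa hcop hc0 hcq
    (hq.trans (pow_dvd_pow _ (by omega))) hc1 hc2 (by omega)
  have h3 := bern Q a a' hb h0 h1 hmix _ u hu
  convert h3 using 1
  have hqK : (q : K) ≠ 0 := by exact_mod_cast (hc0.trans hcq).ne'
  have hbK : (((a + a' : ℕ) : K)) ^ (q * (4 * a' ^ 2 + 1) + m + 2) ≠ 0 :=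
    pow_ne_zero _ (by exact_mod_cast hb.ne')
  have h4 := congrArg (fun z : ℤ => (z : K)) hsum
  push_cast at h4 hbK
  push_cast
  rw [div_eq_div_iff hqK hbK]
  rw [← h4]

theorem close_half (Q : K → Prop) (h0 : Q 0) (h1 : Q 1)
    (hmix : ∀ x y, Q x → Q y → Q ((1 : K) / 2 * x + (1 - (1 : K) / 2) * y)) :
    ∀ (m c : ℕ), c ≤ 2 ^ m → Q ((c : K) / 2 ^ m) := by
  intro m
  induction m with
  | zero =>
    intro c hc
    have : c = 0 ∨ c = 1 := by rw [pow_zero] at hc; omega
    rcases this with rfl | rfl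
    · simpa using h0
    · simpa using h1
  | succ m ih =>
    intro c hc
    have h3 : min c (2 ^ m) ≤ 2 ^ m := min_le_right _ _
    have h4 : c - 2 ^ m ≤ 2 ^ m := by rw [pow_succ] at hc; omega
    have h5 := hmix _ _ (ih _ h3) (ih _ h4)
    convert h5 using 1
    have h6 : c = min c (2 ^ m) + (c - 2 ^ m) := by omega
    have h7 : (c : K) = ((min c (2 ^ m) : ℕ) : K) + ((c - 2 ^ m : ℕ) : K) := by exact_mod_cast h6
    rw [h7]
    field_simp
    ring

/-- Closure under mixing with the weight `a / b` produces all fractions `c / q` with `q` dividing a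
power of `b` and `c` congruent to `0` or `q` modulo `a` and modulo `b - a`. -/
theorem close (Q : K → Prop) (a b : ℕ) (ha : 0 < a) (hab : a < b)
    (hcop : Nat.Coprime a b) (h0 : Q 0) (h1 : Q 1)
    (hmix : ∀ x y, Q x → Q y → Q ((a : K) / b * x + (1 - (a : K) / b) * y))
    (c q m : ℕ) (hq0 : 0 < q) (hcq : c ≤ q) (hq : q ∣ b ^ m)
    (hc1 : a ∣ c ∨ a ∣ q - c) (hc2 : b - a ∣ c ∨ b - a ∣ q - c) : Q ((c : K) / q) := by
  have hqK : (q : K) ≠ 0 := by exact_mod_cast hq0.ne'
  rcases Nat.eq_zero_or_pos c with rfl | hc0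
  · simpa using h0
  rcases Nat.eq_or_lt_of_le hcq with rfl | hcq'
  · rw [div_self hqK]; exact h1
  obtain ⟨a', rfl⟩ : ∃ a', b = a + a' := ⟨b - a, by omega⟩
  rw [Nat.add_sub_cancel_left] at hc2
  have hcop' : Nat.Coprime a a' := by
    rwa [Nat.coprime_self_add_right] at hcop
  have hbK : ((a + a' : ℕ) : K) ≠ 0 := by exact_mod_cast (by omega : a + a' ≠ 0)
  rcases lt_trichotomy a a' with h | h | h
  · exact close_lt Q a a' ha h hcop' h0 h1 hmix c q m hc0 hcq' hq hc1 hc2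
  · subst h
    have ha1 : a = 1 := by simpa using hcop'
    subst ha1
    norm_num at hmix hq
    obtain ⟨d, hd⟩ := hq
    have h3 := close_half Q h0 h1 (by norm_num; exact hmix) m (c * d) (by
      rw [hd]; exact Nat.mul_le_mul_right _ hcq)
    convert h3 using 1
    have h4 : ((2 ^ m : ℕ) : K) = ((q * d : ℕ) : K) := by rw [hd]
    push_cast at h4
    have hd0 : (d : K) ≠ 0 := by
      intro h
      rw [h, mul_zero] at h4
      exact pow_ne_zero m two_ne_zero h4
    rw [h4]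
    push_cast
    rw [mul_div_mul_right _ _ hd0]
  · have hmix' : ∀ x y, Q x → Q y →
        Q ((a' : K) / ((a' + a : ℕ) : K) * x + (1 - (a' : K) / ((a' + a : ℕ) : K)) * y) := by
      intro x y hx hy
      have h3 := hmix y x hy hx
      have h4 : (a' : K) / ((a' + a : ℕ) : K) = 1 - (a : K) / ((a + a' : ℕ) : K) := by
        rw [Nat.add_comm a' a, eq_sub_iff_add_eq, ← add_div, div_eq_one_iff_eq hbK]
        push_cast
        ring
      rw [h4]
      convert h3 using 1
      ring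
    refine close_lt Q a' a (by omega) h hcop'.symm h0 h1 hmix' c q m hc0 hcq' ?_ hc2 hc1
    rwa [Nat.add_comm a' a]

end close

end Pool.Agent.H917TG
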