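import Pool.Agent.H26R2.IdemLI.Spec
import Pool.Agent.H71R2.Idem.Kap
import Pool.Agent.H917TG.Num

/-!
Traces of idempotents over the powers of a group.
-/

set_option autoImplicit false

namespace Pool.Agent.H917TG

open MonoidAlgebra

universe u v w

section mix

variable {K : Type v} [Field K]

/-- `t` is the trace of an idempotent of `K[G^n]` for some `n`. -/
def Tr (K : Type v) [Field K] (G : Type u) [Group G] (t : K) : Prop :=
  ∃ (n : ℕ) (e : MonoidAlgebra K (Fin n → G)), e * e = e ∧ e.coeff 1 = t

variable {A B D : Type*} [Group A] [Group B] [Group D]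

theorem comm_map (φ : A →* D) (ψ : B →* D) (h : ∀ a b, φ a * ψ b = ψ b * φ a)
    (x : MonoidAlgebra K A) (y : MonoidAlgebra K B) :
    mapDomainRingHom K φ x * mapDomainRingHom K ψ y =
      mapDomainRingHom K ψ y * mapDomainRingHom K φ x := by
  induction x using MonoidAlgebra.induction_linear with
  | zero => simp
  | add x1 x2 h1 h2 => rw [map_add, add_mul, mul_add, h1, h2]
  | single a r =>
    induction y using MonoidAlgebra.induction_linear with
    | zero => simp
    | add y1 y2 h1 h2 => rw [map_add, add_mul, mul_add, h1, h2]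
    | single b s =>
      simp only [mapDomainRingHom_apply, mapDomain_single, single_mul_single]
      rw [h a b, mul_comm r s]

theorem trace_map (φ : A →* D) (ψ : B →* D) (h : ∀ a b, φ a * ψ b = 1 ↔ a = 1 ∧ b = 1)
    (x : MonoidAlgebra K A) (y : MonoidAlgebra K B) :
    (mapDomainRingHom K φ x * mapDomainRingHom K ψ y).coeff 1 = x.coeff 1 * y.coeff 1 := by
  classical
  induction x using MonoidAlgebra.induction_linear with
  | zero => simp
  | add x1 x2 h1 h2 =>
    rw [map_add, add_mul, coeff_add, Finsupp.add_apply, h1, h2, coeff_add, Finsupp.add_apply,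
      add_mul]
  | single a r =>
    induction y using MonoidAlgebra.induction_linear with
    | zero => simp
    | add y1 y2 h1 h2 =>
      rw [map_add, mul_add, coeff_add, Finsupp.add_apply, h1, h2, coeff_add, Finsupp.add_apply,
        mul_add]
    | single b s =>
      simp only [mapDomainRingHom_apply, mapDomain_single, single_mul_single, coeff_single,
        Finsupp.single_apply, h a b]
      by_cases ha : a = 1
      · by_cases hb : b = 1
        · simp [ha, hb]
        · simp [hb]
      · simp [ha]

theorem trace_map1 (φ : A →* D) (h : ∀ a, φ a = 1 → a = 1) (x : MonoidAlgebra K A) :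
    (mapDomainRingHom K φ x).coeff 1 = x.coeff 1 := by
  classical
  induction x using MonoidAlgebra.induction_linear with
  | zero => simp
  | add x1 x2 h1 h2 =>
    rw [map_add, coeff_add, Finsupp.add_apply, h1, h2, coeff_add, Finsupp.add_apply]
  | single a r =>
    simp only [mapDomainRingHom_apply, mapDomain_single, coeff_single, Finsupp.single_apply]
    by_cases ha : a = 1
    · simp [ha]
    · have : ¬ φ a = 1 := fun h' => ha (h a h')
      simp [ha, this]

/-- the inclusion of the first coordinates -/
def inL (G : Type u) [Group G] (m n : ℕ) : (Fin m → G) →* (Fin (m + n) → G) where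
  toFun x := Fin.append x 1
  map_one' := by
    funext i
    refine Fin.addCases (fun j => ?_) (fun j => ?_) i
    · simp
    · simp
  map_mul' x y := by
    funext i
    refine Fin.addCases (fun j => ?_) (fun j => ?_) i
    · simp
    · simp

/-- the inclusion of the last coordinates -/
def inR (G : Type u) [Group G] (m n : ℕ) : (Fin n → G) →* (Fin (m + n) → G) where
  toFun x := Fin.append 1 x
  map_one' := by
    funext i
    refine Fin.addCases (fun j => ?_) (fun j => ?_) i
    · simp
    · simp
  map_mul' x y := by
    funext i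
    refine Fin.addCases (fun j => ?_) (fun j => ?_) i
    · simp
    · simp

theorem inLR (G : Type u) [Group G] (m n : ℕ) (x : Fin m → G) (y : Fin n → G) :
    inL G m n x * inR G m n y = Fin.append x y := by
  funext i
  refine Fin.addCases (fun j => ?_) (fun j => ?_) i
  · simp [inL, inR]
  · simp [inL, inR]

theorem inRL (G : Type u) [Group G] (m n : ℕ) (x : Fin m → G) (y : Fin n → G) :
    inR G m n y * inL G m n x = Fin.append x y := by
  funext i
  refine Fin.addCases (fun j => ?_) (fun j => ?_) i
  · simp [inL, inR]
  · simp [inL, inR]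

theorem append_eq_one (G : Type u) [Group G] (m n : ℕ) (x : Fin m → G) (y : Fin n → G) :
    Fin.append x y = 1 ↔ x = 1 ∧ y = 1 := by
  constructor
  · intro h
    constructor
    · funext i
      have := congrFun h (Fin.castAdd n i)
      simpa using this
    · funext i
      have := congrFun h (Fin.natAdd m i)
      simpa using this
  · rintro ⟨rfl, rfl⟩
    funext i
    refine Fin.addCases (fun j => ?_) (fun j => ?_) i
    · simp
    · simp

variable {G : Type u} [Group G]

/-- the trace set is closed under mixing -/
theorem Tr.mix {r x y : K} (hr : Tr K G r) (hx : Tr K G x) (hy : Tr K G y) :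
    Tr K G (r * x + (1 - r) * y) := by
  obtain ⟨m, e, he, rfl⟩ := hr
  obtain ⟨n, f, hf, rfl⟩ := hx
  obtain ⟨k, g, hg, rfl⟩ := hy
  set E := mapDomainRingHom K (inL G m (n + k)) e with hE
  set f' := mapDomainRingHom K (inL G n k) f with hf'
  set g' := mapDomainRingHom K (inR G n k) g with hg'
  set F := mapDomainRingHom K (inR G m (n + k)) f' with hF
  set H := mapDomainRingHom K (inR G m (n + k)) g' with hH
  have c1 : E * F = F * E := comm_map _ _ (fun a b => by rw [inLR, inRL]) _ _
  have c2 : E * H = H * E := comm_map _ _ (fun a b => by rw [inLR, inRL]) _ _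
  have eE : E * E = E := by rw [hE, ← map_mul, he]
  have eF : F * F = F := by rw [hF, ← map_mul, hf', ← map_mul, hf]
  have eH : H * H = H := by rw [hH, ← map_mul, hg', ← map_mul, hg]
  have hlr : ∀ (a : Fin m → G) (b : Fin (n + k) → G),
      inL G m (n + k) a * inR G m (n + k) b = 1 ↔ a = 1 ∧ b = 1 := by
    intro a b
    rw [inLR, append_eq_one]
  refine ⟨m + (n + k), E * F + (1 - E) * H, ?_, ?_⟩
  · have d1 : (E * F) * (E * F) = E * F := by
      calc (E * F) * (E * F) = E * (F * E) * F := by noncomm_ring
        _ = E * (E * F) * F := by rw [c1]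
        _ = (E * E) * (F * F) := by noncomm_ring
        _ = E * F := by rw [eE, eF]
    have c3 : (1 - E) * H = H * (1 - E) := by rw [sub_mul, mul_sub, one_mul, mul_one, c2]
    have c4 : F * (1 - E) = (1 - E) * F := by rw [sub_mul, mul_sub, one_mul, mul_one, c1]
    have z1 : E * (1 - E) = 0 := by rw [mul_sub, mul_one, eE, sub_self]
    have z2 : (1 - E) * E = 0 := by rw [sub_mul, one_mul, eE, sub_self]
    have z3 : (1 - E) * (1 - E) = 1 - E := by rw [mul_sub, mul_one, z2, sub_zero]
    have d2 : (E * F) * ((1 - E) * H) = 0 := by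
      calc (E * F) * ((1 - E) * H) = E * (F * (1 - E)) * H := by noncomm_ring
        _ = E * ((1 - E) * F) * H := by rw [c4]
        _ = (E * (1 - E)) * (F * H) := by noncomm_ring
        _ = 0 := by rw [z1, zero_mul]
    have d3 : ((1 - E) * H) * (E * F) = 0 := by
      calc ((1 - E) * H) * (E * F) = (1 - E) * (H * E) * F := by noncomm_ring
        _ = (1 - E) * (E * H) * F := by rw [c2]
        _ = ((1 - E) * E) * (H * F) := by noncomm_ring
        _ = 0 := by rw [z2, zero_mul]
    have d4 : ((1 - E) * H) * ((1 - E) * H) = (1 - E) * H := by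
      calc ((1 - E) * H) * ((1 - E) * H) = (1 - E) * (H * (1 - E)) * H := by noncomm_ring
        _ = (1 - E) * ((1 - E) * H) * H := by rw [c3]
        _ = ((1 - E) * (1 - E)) * (H * H) := by noncomm_ring
        _ = (1 - E) * H := by rw [z3, eH]
    rw [add_mul, mul_add, mul_add, d1, d2, d3, d4, add_zero, zero_add]
  · have t1 : (E * F).coeff 1 = e.coeff 1 * f.coeff 1 := by
      rw [hE, hF, trace_map _ _ hlr, hf', trace_map1]
      intro a ha
      have := (append_eq_one G n k a 1).1 ha
      exact this.1
    have t2 : ((1 - E) * H).coeff 1 = (1 - e.coeff 1) * g.coeff 1 := by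
      have : (1 - E) = mapDomainRingHom K (inL G m (n + k)) (1 - e) := by
        rw [map_sub, map_one]
      rw [this, hH, trace_map _ _ hlr, hg', trace_map1]
      · congr 1
        rw [coeff_sub, Finsupp.sub_apply]
        congr 1
        exact coeff_one_one
      intro a ha
      have := (append_eq_one G n k 1 a).1 ha
      exact this.2
    rw [coeff_add, Finsupp.add_apply, t1, t2]

theorem Tr.zero : Tr K G 0 := ⟨0, 0, by simp, by simp⟩

theorem Tr.one : Tr K G 1 := ⟨0, 1, by simp, coeff_one_one⟩

theorem Tr.mul {r x : K} (hr : Tr K G r) (hx : Tr K G x) : Tr K G (r * x) := by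
  have := hr.mix hx Tr.zero
  simpa using this

theorem Tr.compl {r : K} (hr : Tr K G r) : Tr K G (1 - r) := by
  have := hr.mix Tr.zero Tr.one
  simpa using this

theorem Tr.pow {r : K} (hr : Tr K G r) (n : ℕ) : Tr K G (r ^ n) := by
  induction n with
  | zero => rw [pow_zero]; exact Tr.one
  | succ n ih => rw [pow_succ]; exact ih.mul hr

/-- an idempotent over `G` itself -/
theorem Tr.of (e : MonoidAlgebra K G) (he : e * e = e) : Tr K G (e.coeff 1) := by
  let φ : G →* (Fin 1 → G) := Pi.constMonoidHom (Fin 1) G
  refine ⟨1, mapDomainRingHom K φ e, by rw [← map_mul, he], trace_map1 _ (fun a ha => ?_) _⟩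
  exact congrFun ha 0

/-- all fractions obtained from one trace -/
theorem Tr.close [CharZero K] (a b : ℕ) (ha : 0 < a) (hab : a < b)
    (hcop : Nat.Coprime a b) (h : Tr K G ((a : K) / b)) (c q m : ℕ) (hq0 : 0 < q) (hcq : c ≤ q)
    (hq : q ∣ b ^ m) (hc1 : a ∣ c ∨ a ∣ q - c) (hc2 : b - a ∣ c ∨ b - a ∣ q - c) :
    Tr K G ((c : K) / q) :=
  Pool.Agent.H917TG.close (Tr K G) a b ha hab hcop Tr.zero Tr.one
    (fun _ _ hx hy => h.mix hx hy) c q m hq0 hcq hq hc1 hc2

end mix

end Pool.Agent.H917TG
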