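import Pool.Agent.H917TG.Mix

/-!
From a nontrivial idempotent to an idempotent whose trace is one over a prime power.
-/

set_option autoImplicit false

namespace Pool.Agent.H917TG

open MonoidAlgebra Polynomial

universe u v w

section

variable {G : Type u} [Group G]

lemma map_inj {A : Type v} {B : Type w} [CommRing A] [CommRing B] (θ : A →+* B)
    (hθ : Function.Injective θ) : Function.Injective (mapRingHom G θ) := by
  intro x y hxy
  ext g
  apply hθ
  rw [← coeff_mapRingHom, ← coeff_mapRingHom, hxy]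

/-- Kaplansky: the trace of a nontrivial idempotent over `ℂ` -/
theorem kap (e : MonoidAlgebra ℂ G) (he : e * e = e) :
    ∃ x : ℝ, 0 ≤ x ∧ x ≤ 1 ∧ e.coeff 1 = x ∧ (e ≠ 0 → 0 < x) ∧ (e ≠ 1 → x < 1) := by
  classical
  have h1 := Pool.Agent.H71R2.Idem.Kap.coeff_one_re_nonneg e he
  have he' : (1 - e) * (1 - e) = 1 - e := by
    rw [mul_sub, sub_mul, sub_mul, he]
    simp
  have h2 := Pool.Agent.H71R2.Idem.Kap.coeff_one_re_nonneg (1 - e) he'
  have h3 : (1 - e).coeff 1 = 1 - e.coeff 1 := by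
    rw [MonoidAlgebra.coeff_sub, Finsupp.sub_apply]
    congr 1
    exact coeff_one_one
  rw [h3, Complex.sub_re, Complex.one_re] at h2
  have h4 : e.coeff 1 = ((e.coeff 1).re : ℂ) := by
    apply Complex.ext
    · simp
    · simp [h1.2]
  refine ⟨(e.coeff 1).re, h1.1, by linarith [h2.1], h4, fun h => ?_, fun h => ?_⟩
  · refine lt_of_le_of_ne h1.1 (fun h5 => h ?_)
    apply Pool.Agent.H71R2.Idem.Kap.eq_zero_of_coeff_one e he
    rw [h4, ← h5, Complex.ofReal_zero]
  · refine lt_of_le_of_ne (by linarith [h2.1]) (fun h5 => h ?_)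
    have h6 : (1 - e) = 0 := by
      apply Pool.Agent.H71R2.Idem.Kap.eq_zero_of_coeff_one (1 - e) he'
      rw [h3, h4, h5, Complex.ofReal_one, sub_self]
    exact (sub_eq_zero.1 h6).symm

/-- an element with coefficients in a subring -/
lemma exists_lift {K : Type v} [Field K] (A : Subring K) (e : MonoidAlgebra K G)
    (h : ∀ g, e.coeff g ∈ A) : ∃ e' : MonoidAlgebra A G, mapRingHom G A.subtype e' = e := by
  classical
  refine ⟨∑ g ∈ e.coeff.support, single g ⟨e.coeff g, h g⟩, ?_⟩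
  rw [map_sum]
  ext g
  rw [MonoidAlgebra.coeff_sum, Finsupp.finsetSum_apply]
  have h1 : ∀ y ∈ e.coeff.support,
      (mapRingHom G A.subtype (single y ⟨e.coeff y, h y⟩)).coeff g =
      if y = g then e.coeff y else 0 := by
    intro y _
    rw [coeff_mapRingHom, coeff_single, Finsupp.single_apply]
    split_ifs
    · rfl
    · exact map_zero _
  rw [Finset.sum_congr rfl h1, Finset.sum_ite_eq']
  split_ifs with h2
  · rfl
  · exact (Finsupp.notMem_support_iff.1 h2).symm

/-- specialisation of a nontrivial idempotent to algebraic numbers -/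
theorem exists_alg_idem {K : Type v} [Field K] [CharZero K] (e : MonoidAlgebra K G)
    (he : e * e = e) (h0 : e ≠ 0) (h1 : e ≠ 1) :
    ∃ (L : Type v) (_ : Field L) (_ : Algebra ℚ L) (_ : Algebra.IsAlgebraic ℚ L)
      (e' : MonoidAlgebra L G), e' * e' = e' ∧ e' ≠ 0 ∧ e' ≠ 1 := by
  classical
  obtain ⟨g0, hg0⟩ : ∃ g, e.coeff g ≠ 0 := by
    by_contra hcon
    push Not at hcon
    apply h0
    ext g
    exact hcon g
  obtain ⟨g1, hg1⟩ : ∃ g, (1 - e).coeff g ≠ 0 := by
    by_contra hcon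
    push Not at hcon
    apply h1
    have : (1 - e) = 0 := by
      ext g
      exact hcon g
    exact (sub_eq_zero.1 this).symm
  obtain ⟨L, _, _, _, A, θ, hA⟩ := Pool.Agent.H26R2.IdemLI.exists_alg K
    (insert (e.coeff g0)⁻¹ (insert ((1 - e).coeff g1)⁻¹ (e.coeff.support.image e.coeff)))
  have hm0 : (e.coeff g0)⁻¹ ∈ A := hA (by simp)
  have hm1 : ((1 - e).coeff g1)⁻¹ ∈ A := hA (by simp)
  have hm : ∀ g, e.coeff g ∈ A := by
    intro g
    by_cases hg : e.coeff g = 0
    · rw [hg]; exact A.zero_mem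
    · apply hA
      refine Finset.mem_coe.2 (Finset.mem_insert_of_mem (Finset.mem_insert_of_mem
        (Finset.mem_image_of_mem _ (Finsupp.mem_support_iff.2 hg))))
  obtain ⟨e1, he1⟩ := exists_lift A e hm
  have hinj : Function.Injective (mapRingHom G A.subtype) := map_inj _ Subtype.val_injective
  have he1i : e1 * e1 = e1 := by
    apply hinj
    rw [map_mul, he1, he]
  have hunit : ∀ (x : MonoidAlgebra A G) (g : G),
      (mapRingHom G A.subtype x).coeff g ≠ 0 → ((mapRingHom G A.subtype x).coeff g)⁻¹ ∈ A →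
      mapRingHom G θ x ≠ 0 := by
    intro x g hx hxi h
    have h2 : (mapRingHom G θ x).coeff g = 0 := by rw [h]; rfl
    rw [coeff_mapRingHom] at h2
    rw [coeff_mapRingHom] at hx hxi
    have h3 : x.coeff g * ⟨(A.subtype (x.coeff g))⁻¹, hxi⟩ = 1 := by
      apply Subtype.ext
      exact mul_inv_cancel₀ hx
    have h4 := congrArg θ h3
    rw [map_mul, h2, zero_mul, map_one] at h4
    exact zero_ne_one h4
  refine ⟨L, inferInstance, inferInstance, inferInstance, mapRingHom G θ e1,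
    by rw [← map_mul, he1i], ?_, ?_⟩
  · exact hunit e1 g0 (by rw [he1]; exact hg0) (by rw [he1]; exact hm0)
  · intro h
    have h2 : mapRingHom G θ (1 - e1) ≠ 0 := by
      apply hunit (1 - e1) g1
      · rw [map_sub, map_one, he1]; exact hg1
      · rw [map_sub, map_one, he1]; exact hm1
    apply h2
    rw [map_sub, map_one, h, sub_self]

/-- the norm trick: a rational trace -/
theorem exists_rat {K : Type v} [Field K] [CharZero K] (e : MonoidAlgebra K G)
    (he : e * e = e) (h0 : e ≠ 0) (h1 : e ≠ 1) :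
    ∃ r : ℚ, 0 < r ∧ r < 1 ∧ Tr ℂ G (r : ℂ) := by
  classical
  obtain ⟨L, _, _, _, e', he', h0', h1'⟩ := exists_alg_idem e he h0 h1
  set t : L := e'.coeff 1 with ht
  have hgood : ∀ ψ : L →ₐ[ℚ] ℂ, Tr ℂ G (ψ t) ∧ ∃ x : ℝ, 0 < x ∧ x < 1 ∧ ψ t = x := by
    intro ψ
    have hinj : Function.Injective (mapRingHom G (ψ : L →+* ℂ)) := map_inj _ ψ.injective
    set f : MonoidAlgebra ℂ G := mapRingHom G (ψ : L →+* ℂ) e' with hf
    have hff : f * f = f := by rw [hf, ← map_mul, he']
    have hf0 : f ≠ 0 := by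
      intro h
      apply h0'
      apply hinj
      rw [← hf, h, map_zero]
    have hf1 : f ≠ 1 := by
      intro h
      apply h1'
      apply hinj
      rw [← hf, h, map_one]
    have hft : f.coeff 1 = ψ t := by rw [hf, coeff_mapRingHom]; rfl
    obtain ⟨x, _, _, hx, hx0, hx1⟩ := kap f hff
    refine ⟨hft ▸ Tr.of f hff, x, hx0 hf0, hx1 hf1, by rw [← hft, hx]⟩
  have hint : IsIntegral ℚ t := (Algebra.IsAlgebraic.isAlgebraic t).isIntegral
  set P : ℂ[X] := (minpoly ℚ t).map (algebraMap ℚ ℂ) with hP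
  have hroots : ∀ z ∈ P.roots, Tr ℂ G z ∧ ∃ x : ℝ, 0 < x ∧ x < 1 ∧ z = x := by
    intro z hz
    have h2 : z ∈ (minpoly ℚ t).rootSet ℂ := by
      rw [Polynomial.mem_rootSet']
      rw [Polynomial.mem_roots'] at hz
      refine ⟨hz.1, ?_⟩
      have := hz.2
      rwa [hP, IsRoot, eval_map_algebraMap] at this
    rw [← Algebra.IsAlgebraic.range_eval_eq_rootSet_minpoly] at h2
    obtain ⟨ψ, hψ⟩ := h2
    have hψ' : ψ t = z := hψ
    rw [← hψ']
    exact hgood ψ
  have hmul : ∀ s : Multiset ℂ, (∀ z ∈ s, Tr ℂ G z ∧ ∃ x : ℝ, 0 < x ∧ x < 1 ∧ z = x) →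
      Tr ℂ G s.prod ∧ ∃ x : ℝ, 0 < x ∧ x ≤ 1 ∧ s.prod = x ∧ (s ≠ 0 → x < 1) := by
    intro s
    induction s using Multiset.induction_on with
    | empty =>
      intro _
      refine ⟨by simpa using Tr.one, 1, one_pos, le_rfl, by simp, fun h => absurd rfl h⟩
    | cons a s ih =>
      intro h
      obtain ⟨h2, x, hx0, hx1, hx, _⟩ := ih (fun z hz => h z (Multiset.mem_cons_of_mem hz))
      obtain ⟨h3, y, hy0, hy1, hy⟩ := h a (Multiset.mem_cons_self a s)
      rw [Multiset.prod_cons]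
      have h4 : y * x < 1 := by nlinarith
      exact ⟨h3.mul h2, y * x, mul_pos hy0 hx0, h4.le, by rw [hx, hy]; push_cast; ring,
        fun _ => h4⟩
  obtain ⟨h2, x, hx0, _, hx, hx1⟩ := hmul P.roots hroots
  have hPm : P.Monic := (minpoly.monic hint).map _
  have hPs : P.Splits := IsAlgClosed.splits P
  have hne : P.roots ≠ 0 := by
    intro h
    have h3 := hPs.natDegree_eq_card_roots
    rw [h, Multiset.card_zero, hP, natDegree_map] at h3
    exact (minpoly.natDegree_pos hint).ne' h3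
  have hcoef := hPs.coeff_zero_eq_prod_roots_of_monic hPm
  set r : ℚ := (-1) ^ P.natDegree * (minpoly ℚ t).coeff 0 with hr
  have hrz : (r : ℂ) = P.roots.prod := by
    have h3 : P.coeff 0 = (((minpoly ℚ t).coeff 0 : ℚ) : ℂ) := by
      rw [hP, Polynomial.coeff_map]; rfl
    rw [hr]
    push_cast
    rw [← h3, hcoef, ← mul_assoc, ← mul_pow]
    simp
  have hrx : (r : ℝ) = x := by
    have h3 : ((r : ℝ) : ℂ) = (x : ℂ) := by
      rw [← hx, ← hrz]
      push_cast
      rfl
    exact_mod_cast h3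
  refine ⟨r, ?_, ?_, hrz ▸ h2⟩
  · have : (0 : ℝ) < r := by rw [hrx]; exact hx0
    exact_mod_cast this
  · have : (r : ℝ) < 1 := by rw [hrx]; exact hx1 hne
    exact_mod_cast this

/-- one over a power of `p`, for every prime `p` dividing the denominator -/
theorem primePow {K : Type v} [Field K] [CharZero K] (a b : ℕ) (ha : 0 < a) (hab : a < b)
    (hcop : Nat.Coprime a b) (h : Tr K G ((a : K) / b)) (p : ℕ) (hp : p.Prime) (hpb : p ∣ b) :
    ∃ s : ℕ, 0 < s ∧ Tr K G (1 / ((p ^ s : ℕ) : K)) := by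
  set M : ℕ := a * (b - a) with hM
  have hMpos : 0 < M := Nat.mul_pos ha (by omega)
  have hpM : Nat.Coprime p M := by
    rw [hM]
    apply Nat.Coprime.mul_right
    · exact Nat.Coprime.coprime_dvd_left hpb hcop.symm
    · refine Nat.Coprime.coprime_dvd_left hpb ?_
      rw [Nat.coprime_self_sub_right hab.le]
      exact hcop.symm
  have hs : 0 < M.totient := Nat.totient_pos.2 hMpos
  have hmod : M ∣ p ^ M.totient - 1 := by
    have h2 := Nat.ModEq.pow_totient hpM
    exact (Nat.modEq_iff_dvd' (Nat.one_le_pow _ _ hp.pos)).1 h2.symm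
  refine ⟨M.totient, hs, ?_⟩
  have h3 := Tr.close a b ha hab hcop h 1 (p ^ M.totient) M.totient
    (pow_pos hp.pos _) (Nat.one_le_pow _ _ hp.pos) (pow_dvd_pow_of_dvd hpb _)
    (Or.inr ((Dvd.intro _ rfl).trans hmod)) (Or.inr ((Dvd.intro_left _ rfl).trans hmod))
  simpa using h3

theorem exists_primePow {K : Type v} [Field K] [CharZero K] (e : MonoidAlgebra K G)
    (he : e * e = e) (h0 : e ≠ 0) (h1 : e ≠ 1) :
    ∃ q : ℕ, IsPrimePow q ∧ Tr ℂ G (1 / (q : ℂ)) := by
  obtain ⟨r, hr0, hr1, hr⟩ := exists_rat e he h0 h1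
  have hnum : 0 < r.num := Rat.num_pos.2 hr0
  obtain ⟨a, ha⟩ : ∃ a : ℕ, r.num = a := ⟨r.num.toNat, (Int.toNat_of_nonneg hnum.le).symm⟩
  have ha0 : 0 < a := by omega
  have hab : a < r.den := by
    have h2 := Rat.num_div_den r
    have h3 : (r.num : ℚ) < r.den := by
      have hd : (0 : ℚ) < r.den := by exact_mod_cast r.pos
      rw [← h2, div_lt_one hd] at hr1
      exact_mod_cast hr1
    rw [ha] at h3
    exact_mod_cast h3
  have hcop : Nat.Coprime a r.den := by
    have := r.reduced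
    rwa [ha, Int.natAbs_natCast] at this
  have hTr : Tr ℂ G ((a : ℂ) / (r.den : ℂ)) := by
    have h2 : (r : ℂ) = (a : ℂ) / (r.den : ℂ) := by
      conv_lhs => rw [← Rat.num_div_den r]
      rw [ha]
      push_cast
      rfl
    rwa [h2] at hr
  obtain ⟨p, hp, hpd⟩ := Nat.exists_prime_and_dvd (show r.den ≠ 1 by omega)
  obtain ⟨s, hs, h2⟩ := primePow a r.den ha0 hab hcop hTr p hp hpd
  exact ⟨p ^ s, hp.isPrimePow.pow hs.ne', h2⟩

/-- density of the traces -/
theorem dense_of {t : ℂ} (h : Tr ℂ G t) {x : ℝ} (hx0 : 0 < x) (hx1 : x < 1) (hx : t = x)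
    {s s' : ℝ} (hs0 : 0 ≤ s) (hs : s < s') (hs1 : s' ≤ 1) :
    ∃ y : ℝ, s < y ∧ y < s' ∧ Tr ℂ G (y : ℂ) := by
  obtain ⟨k, hk⟩ := exists_pow_lt_of_lt_one (sub_pos.2 hs) hx1
  set ε : ℝ := x ^ k with hε
  have hε0 : 0 < ε := pow_pos hx0 k
  have hu : Tr ℂ G (((1 - ε : ℝ)) : ℂ) := by
    have := (h.pow k).compl
    rw [hx] at this
    rw [hε]
    push_cast
    exact this
  have hε1 : ε < 1 := by linarith
  have hu1 : 1 - ε < 1 := by linarith
  have hu0 : 0 ≤ 1 - ε := by linarith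
  have hex : ∃ j, (1 - ε) ^ j < s' := exists_pow_lt_of_lt_one (by linarith) hu1
  classical
  set j := Nat.find hex with hj
  have hj1 : (1 - ε) ^ j < s' := Nat.find_spec hex
  refine ⟨(1 - ε) ^ j, ?_, hj1, ?_⟩
  · rcases Nat.eq_zero_or_pos j with h0 | hpos
    · rw [h0, pow_zero] at hj1
      linarith
    · obtain ⟨i, hi⟩ := Nat.exists_eq_succ_of_ne_zero hpos.ne'
      have h3 : ¬ (1 - ε) ^ i < s' := Nat.find_min hex (by omega)
      have h4 : (1 - ε) ^ j = (1 - ε) ^ i - (1 - ε) ^ i * ε := by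
        rw [hi, pow_succ]; ring
      have h5 : (1 - ε) ^ i ≤ 1 := pow_le_one₀ hu0 hu1.le
      rw [h4]
      nlinarith
  · have := hu.pow j
    push_cast at this ⊢
    exact this

end

end Pool.Agent.H917TG
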