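import Pool.Agent.H917TG.Wr

set_option autoImplicit false

universe u v w z

namespace Pool.Agent.H917TG.TraceGap

open Pool.Agent.H917TG

/-- The trace of an idempotent is its coefficient at the identity.

Part 1 (for a field `K` of characteristic 0 and any group `G`): if an idempotent over `K[G^m]` has
trace `a / b` in lowest terms, `0 < a < b`, then every fraction `c / q`, `0 ≤ c ≤ q`, with `q`
dividing a power of `b` and `c` congruent to `0` or `q` modulo `a` and modulo `b - a`, is the trace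
of an idempotent over some `K[G^n]`.

Part 2: equivalence of
1. Kaplansky's conjecture for all torsion-free groups and all fields of characteristic 0;
2. no idempotent of `ℂ[G]`, `G` a finitely generated torsion-free group, has trace `1 / q` with `q`
   a prime power, `q > 1`;
3. for all primes `p` and all `m > 0` there is `k > 0` such that `p ^ (-k * m)` is not the trace of
   an idempotent of `ℂ[G]` for any finitely generated torsion-free group `G`;
4. for every finitely generated torsion-free group `G` some integer `N > 0` satisfies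
   `N * trace ∈ ℤ` for all idempotents of `ℂ[G]`;
5. for every finitely generated torsion-free group `G` there is a nonempty open subinterval of
   `[0, 1]` containing no trace of an idempotent of `ℂ[G]`. -/
theorem result :
    (∀ (K : Type v) [Field K] [CharZero K] (G : Type u) [Group G] (m : ℕ)
      (e : MonoidAlgebra K (Fin m → G)) (a b c q k : ℕ), e * e = e → 0 < a → a < b →
      Nat.Coprime a b → e.coeff 1 = (a : K) / (b : K) → 0 < q → c ≤ q → q ∣ b ^ k →
      (a ∣ c ∨ a ∣ q - c) → (b - a ∣ c ∨ b - a ∣ q - c) →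
      ∃ (n : ℕ) (f : MonoidAlgebra K (Fin n → G)), f * f = f ∧ f.coeff 1 = (c : K) / (q : K)) ∧
    List.TFAE [
      ∀ (K : Type w) [Field K] [CharZero K] (G : Type z) [Group G],
        (∀ (g : G) (n : ℕ), 0 < n → g ^ n = 1 → g = 1) →
        ∀ e : MonoidAlgebra K G, e * e = e → e = 0 ∨ e = 1,
      ∀ (G : Type z) [Group G], (∀ (g : G) (n : ℕ), 0 < n → g ^ n = 1 → g = 1) → Group.FG G →
        ∀ e : MonoidAlgebra ℂ G, e * e = e → ∀ q : ℕ, IsPrimePow q → e.coeff 1 ≠ 1 / (q : ℂ),
      ∀ p m : ℕ, p.Prime → 0 < m → ∃ k : ℕ, 0 < k ∧ ∀ (G : Type z) [Group G],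
        (∀ (g : G) (n : ℕ), 0 < n → g ^ n = 1 → g = 1) → Group.FG G →
        ∀ e : MonoidAlgebra ℂ G, e * e = e → e.coeff 1 ≠ 1 / (p : ℂ) ^ (k * m),
      ∀ (G : Type z) [Group G], (∀ (g : G) (n : ℕ), 0 < n → g ^ n = 1 → g = 1) → Group.FG G →
        ∃ N : ℕ, 0 < N ∧ ∀ e : MonoidAlgebra ℂ G, e * e = e →
          ∃ t : ℤ, (N : ℂ) * e.coeff 1 = (t : ℂ),
      ∀ (G : Type z) [Group G], (∀ (g : G) (n : ℕ), 0 < n → g ^ n = 1 → g = 1) → Group.FG G →
        ∃ r s : ℝ, 0 ≤ r ∧ r < s ∧ s ≤ 1 ∧ ∀ e : MonoidAlgebra ℂ G, e * e = e →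
          ¬ ∃ y : ℝ, r < y ∧ y < s ∧ e.coeff 1 = (y : ℂ)] := by
  refine ⟨?_, ?_⟩
  · intro K _ _ G _ m e a b c q k he ha hab hcop ht hq hcq hqb hc1 hc2
    exact Tr.close a b ha hab hcop ⟨m, e, he, ht⟩ c q k hq hcq hqb hc1 hc2
  · -- a counterexample gives a rich finitely generated group
    have key : ∀ (K : Type w) [Field K] [CharZero K] (G : Type z) [Group G],
        (∀ (g : G) (n : ℕ), 0 < n → g ^ n = 1 → g = 1) →
        ∀ e : MonoidAlgebra K G, e * e = e → e ≠ 0 → e ≠ 1 →
        ∃ (H : Type z) (_ : Group H), TF H ∧ Group.FG H ∧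
          (∃ p s : ℕ, p.Prime ∧ 0 < s ∧ ∀ k : ℕ, ∃ f : MonoidAlgebra ℂ H, f * f = f ∧
            f.coeff 1 = 1 / (p : ℂ) ^ (k * s)) ∧
          (∀ r s : ℝ, 0 ≤ r → r < s → s ≤ 1 → ∃ f : MonoidAlgebra ℂ H, f * f = f ∧
            ∃ y : ℝ, r < y ∧ y < s ∧ f.coeff 1 = (y : ℂ)) := by
      intro K _ _ G _ hG e he h0 h1
      obtain ⟨G0, _, hG0, hfg, e0, he0, h00, h01⟩ := exists_fg hG e he h0 h1
      obtain ⟨q, hq, hTr⟩ := exists_primePow e0 he0 h00 h01
      obtain ⟨H, _, hH, hHfg, hHt⟩ := exists_big hG0 hfg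
      obtain ⟨p, s, hp, hs, rfl⟩ := hq
      refine ⟨H, inferInstance, hH, hHfg, ⟨p, s, hp.nat_prime, hs, fun k => ?_⟩, ?_⟩
      · obtain ⟨f, hf, hft⟩ := hHt _ (hTr.pow k)
        refine ⟨f, hf, ?_⟩
        rw [hft, one_div, one_div, inv_pow, Nat.cast_pow, ← pow_mul, mul_comm s k]
      · intro r t hr hrt ht
        have hp1 : (1 : ℝ) < (p : ℝ) ^ s := by
          have : 1 < p := hp.nat_prime.one_lt
          exact one_lt_pow₀ (by exact_mod_cast this) hs.ne'
        have hx0 : (0 : ℝ) < 1 / (p : ℝ) ^ s := by positivity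
        have hx1 : 1 / (p : ℝ) ^ s < 1 := by
          rw [div_lt_one (by positivity)]
          exact hp1
        obtain ⟨y, hy1, hy2, hy⟩ := dense_of hTr hx0 hx1 (by push_cast; rfl) hr hrt ht
        obtain ⟨f, hf, hft⟩ := hHt _ hy
        exact ⟨f, hf, y, hy1, hy2, hft⟩
    have triv : ∀ {G : Type z} [Group G] (e : MonoidAlgebra ℂ G), e * e = e →
        (∀ (K : Type w) [Field K] [CharZero K] (G : Type z) [Group G],
          (∀ (g : G) (n : ℕ), 0 < n → g ^ n = 1 → g = 1) →
          ∀ e : MonoidAlgebra K G, e * e = e → e = 0 ∨ e = 1) →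
        (∀ (g : G) (n : ℕ), 0 < n → g ^ n = 1 → g = 1) → e.coeff 1 = 0 ∨ e.coeff 1 = 1 := by
      intro G _ e he h hG
      have hc : CharZero (ULift.{w} ℂ) :=
        charZero_of_injective_ringHom (f := (ULift.ringEquiv.{0, w} (R := ℂ)).symm.toRingHom)
          (ULift.ringEquiv.{0, w} (R := ℂ)).symm.injective
      set θ : ℂ →+* ULift.{w} ℂ := (ULift.ringEquiv.{0, w} (R := ℂ)).symm.toRingHom with hθ
      have h1 := h (ULift.{w} ℂ) G hG (MonoidAlgebra.mapRingHom G θ e) (by rw [← map_mul, he])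
      have h2 : (MonoidAlgebra.mapRingHom G θ e).coeff 1 = θ (e.coeff 1) := by
        rw [MonoidAlgebra.coeff_mapRingHom]
      rcases h1 with h1 | h1
      · left
        rw [h1] at h2
        apply θ.injective
        rw [← h2, map_zero]
        rfl
      · right
        rw [h1] at h2
        apply θ.injective
        rw [← h2, map_one θ]
        exact MonoidAlgebra.coeff_one_one
    tfae_have 1 → 2 := by
      intro h G _ hG _ e he q hq h1
      have hq2 : 2 ≤ q := hq.two_le
      have hq0 : (q : ℂ) ≠ 0 := by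
        have : q ≠ 0 := by omega
        exact_mod_cast this
      rcases triv e he h hG with h2 | h2
      · rw [h2] at h1
        exact one_div_ne_zero hq0 h1.symm
      · rw [h2, eq_div_iff hq0, one_mul] at h1
        have : q = 1 := by exact_mod_cast h1
        omega
    tfae_have 2 → 3 := by
      intro h p m hp hm
      refine ⟨1, one_pos, fun G _ hG hfg e he h1 => ?_⟩
      refine h G hG hfg e he (p ^ m) (hp.isPrimePow.pow hm.ne') ?_
      rw [h1, one_mul, Nat.cast_pow]
    tfae_have 3 → 1 := by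
      intro h K _ _ G _ hG e he
      by_contra hcon
      push Not at hcon
      obtain ⟨H, _, hH, hHfg, ⟨p, s, hp, hs, hk⟩, _⟩ := key K G hG e he hcon.1 hcon.2
      obtain ⟨k, _, hk2⟩ := h p s hp hs
      obtain ⟨f, hf, hft⟩ := hk k
      exact hk2 H hH hHfg f hf hft
    tfae_have 1 → 4 := by
      intro h G _ hG _
      refine ⟨1, one_pos, fun e he => ?_⟩
      rcases triv e he h hG with h2 | h2
      · exact ⟨0, by rw [h2]; simp⟩
      · exact ⟨1, by rw [h2]; simp⟩
    tfae_have 4 → 1 := by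
      intro h K _ _ G _ hG e he
      by_contra hcon
      push Not at hcon
      obtain ⟨H, _, hH, hHfg, ⟨p, s, hp, hs, hk⟩, _⟩ := key K G hG e he hcon.1 hcon.2
      obtain ⟨N, hN, hN2⟩ := h H hH hHfg
      obtain ⟨f, hf, hft⟩ := hk N
      obtain ⟨t, ht⟩ := hN2 f hf
      have hp0 : (p : ℂ) ^ (N * s) ≠ 0 := pow_ne_zero _ (by exact_mod_cast hp.ne_zero)
      rw [hft, mul_one_div, div_eq_iff hp0] at ht
      have h3 : (N : ℤ) = t * (p : ℤ) ^ (N * s) := by exact_mod_cast ht
      have h4 : (p : ℤ) ^ (N * s) ∣ (N : ℤ) := ⟨t, by rw [h3, mul_comm]⟩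
      have h5 : p ^ (N * s) ∣ N := by exact_mod_cast h4
      have h6 := Nat.le_of_dvd hN h5
      have h7 : N < p ^ (N * s) := calc
        N < p ^ N := Nat.lt_pow_self hp.one_lt
        _ ≤ p ^ (N * s) := Nat.pow_le_pow_right hp.pos (Nat.le_mul_of_pos_right N hs)
      omega
    tfae_have 1 → 5 := by
      intro h G _ hG _
      refine ⟨0, 1, le_rfl, one_pos, le_rfl, fun e he ⟨y, hy0, hy1, hy⟩ => ?_⟩
      rcases triv e he h hG with h2 | h2
      · rw [h2] at hy
        have : y = 0 := by exact_mod_cast hy.symm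
        linarith
      · rw [h2] at hy
        have : y = 1 := by exact_mod_cast hy.symm
        linarith
    tfae_have 5 → 1 := by
      intro h K _ _ G _ hG e he
      by_contra hcon
      push Not at hcon
      obtain ⟨H, _, hH, hHfg, _, hd⟩ := key K G hG e he hcon.1 hcon.2
      obtain ⟨r, s, hr, hrs, hs, hno⟩ := h H hH hHfg
      obtain ⟨f, hf, y, hy⟩ := hd r s hr hrs hs
      exact hno f hf ⟨y, hy⟩
    tfae_finish

end Pool.Agent.H917TG.TraceGap
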